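import Mathlib
import Pool.Agent.Helper591.TC.Main0
import Pool.Agent.Helper306.TC.Asm5

/-!
# MP_e53872_an, Q1: a sequence good for 2-convergence of powers but not for commuting maps

`Pool.TC.GoodPow2 a`: for every invertible measure preserving system `(X, μ, T)` and all
`f₁, f₂ ∈ L^∞(μ)` the averages `(1/N) ∑_{n=1}^N T^{a(n)} f₁ · T^{2a(n)} f₂` converge in `L²(μ)`.

`Pool.TC.GoodComm2 a`: for every probability space, all commuting invertible measure preserving
maps `T₁, T₂` and all `f₁, f₂ ∈ L^∞(μ)` the averages
`(1/N) ∑_{n=1}^N T₁^{a(n)} f₁ · T₂^{a(n)} f₂` converge in `L²(μ)`.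
-/

set_option autoImplicit false

namespace Pool.Agent.Results.MP_e53872_an.PowersNotCommuting

/-- There is a sequence of integers that is good for 2-convergence of powers but not good for
2-convergence of commuting transformations. -/
theorem result : ∃ a : ℕ → ℤ, Pool.TC.GoodPow2 a ∧ ¬ Pool.TC.GoodComm2 a :=
  Pool.TC.Asm.result

end Pool.Agent.Results.MP_e53872_an.PowersNotCommuting
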